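import Pool.Agent.D0H45.TH.Stm

/-!
# PROJECT TH: modules BURN and UNI
-/

set_option autoImplicit false

namespace Pool.Agent.D0H74.TH

open Module Pool.Agent.D0H45.TH

section burn

variable {F V G : Type} [Field F] [IsAlgClosed F] [AddCommGroup V] [Module F V]
  [Module.Finite F V] [Group G]

/-- Schur's lemma -/
theorem schur (ρ : G →* Module.End F V)
    (hirr : ∀ W : Submodule F V, (∀ g, ∀ x ∈ W, ρ g x ∈ W) → W = ⊥ ∨ W = ⊤)
    (Z : Module.End F V) (hZ : ∀ g, Z * ρ g = ρ g * Z) :
    ∃ c : F, Z = c • (1 : Module.End F V) := by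
  rcases subsingleton_or_nontrivial V with hV | hV
  · exact ⟨0, LinearMap.ext fun x => Subsingleton.elim _ _⟩
  obtain ⟨c, hc⟩ := Module.End.exists_eigenvalue Z
  refine ⟨c, ?_⟩
  rcases hirr (Module.End.eigenspace Z c) (fun g x hx => by
    rw [Module.End.mem_eigenspace_iff] at hx ⊢
    have h1 : (Z * ρ g) x = (ρ g * Z) x := by rw [hZ]
    rw [Module.End.mul_apply, Module.End.mul_apply, hx, map_smul] at h1
    exact h1) with h | h
  · exact absurd h hc
  · refine LinearMap.ext fun x => ?_
    have hx : x ∈ Module.End.eigenspace Z c := by rw [h]; exact Submodule.mem_top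
    rw [Module.End.mem_eigenspace_iff] at hx
    rw [hx]
    rfl

/-- Burnside's theorem -/
theorem burnside (ρ : G →* Module.End F V)
    (hirr : ∀ W : Submodule F V, (∀ g, ∀ x ∈ W, ρ g x ∈ W) → W = ⊥ ∨ W = ⊤) :
    Submodule.span F (Set.range ρ) = ⊤ := by
  classical
  rcases subsingleton_or_nontrivial V with hV | hV
  · rw [eq_top_iff]
    intro x _
    have h0 : x = 0 := LinearMap.ext fun v => Subsingleton.elim _ _
    rw [h0]
    exact Submodule.zero_mem _
  let S : Submonoid (Module.End F V) := MonoidHom.mrange ρ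
  let A : Subalgebra F (Module.End F V) := Algebra.adjoin F (S : Set (Module.End F V))
  have hA : Subalgebra.toSubmodule A = Submodule.span F (S : Set (Module.End F V)) := by
    rw [Algebra.adjoin_eq_span, Submonoid.closure_eq]
  have hgA : ∀ g : G, ρ g ∈ A := fun g => Algebra.subset_adjoin ⟨g, rfl⟩
  have hsimple : IsSimpleModule A V := by
    rw [isSimpleModule_iff]
    refine { exists_pair_ne := ⟨⊥, ⊤, bot_ne_top⟩, eq_bot_or_eq_top := fun W => ?_ }
    let W' : Submodule F V := W.restrictScalars F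
    rcases hirr W' (fun g x hx => W.smul_mem ⟨_, hgA g⟩ hx) with h | h
    · left
      ext x
      have h1 : x ∈ W' ↔ x ∈ (⊥ : Submodule F V) := by rw [h]
      exact h1
    · right
      ext x
      have h1 : x ∈ W' ↔ x ∈ (⊤ : Submodule F V) := by rw [h]
      exact h1
  have hend := IsSimpleModule.algebraMap_end_bijective_of_isAlgClosed (A := A) (V := V) F
  rw [eq_top_iff]
  rintro f0 -
  let f : Module.End (Module.End A V) V :=
    { toFun := f0
      map_add' := map_add f0
      map_smul' := fun φ v => by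
        obtain ⟨c, hc⟩ := hend.2 φ
        have h1 : ∀ v : V, φ • v = c • v := by
          intro v
          rw [← hc]
          rfl
        rw [RingHom.id_apply, h1, h1, map_smul] }
  let b := Module.finBasis F V
  obtain ⟨r, hr⟩ := jacobson_density (R := A) (M := V) f (Finset.univ.image b)
  have hf0 : f0 = (r : Module.End F V) := by
    refine b.ext fun i => ?_
    exact hr _ (Finset.mem_image_of_mem _ (Finset.mem_univ i))
  have h1 : f0 ∈ Submodule.span F (S : Set (Module.End F V)) := by
    rw [← hA, hf0]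
    exact r.2
  exact h1

/-- the trace form on an irreducible representation -/
theorem trace_zero (ρ : G →* Module.End F V)
    (hirr : ∀ W : Submodule F V, (∀ g, ∀ x ∈ W, ρ g x ∈ W) → W = ⊥ ∨ W = ⊤)
    (Z : Module.End F V) (hZ : ∀ g, LinearMap.trace F V (Z * ρ g) = 0) : Z = 0 := by
  have h1 : ∀ X : Module.End F V, LinearMap.trace F V (Z * X) = 0 := by
    intro X
    have hX : X ∈ Submodule.span F (Set.range ρ) := by
      rw [burnside ρ hirr]; exact Submodule.mem_top
    induction hX using Submodule.span_induction with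
    | mem x hx =>
      obtain ⟨g, rfl⟩ := hx
      exact hZ g
    | zero => rw [mul_zero, map_zero]
    | add x y _ _ hx hy => rw [mul_add, map_add, hx, hy, add_zero]
    | smul a x _ hx => rw [mul_smul_comm, map_smul, hx, smul_zero]
  refine LinearMap.ext fun v => ?_
  refine (Module.forall_dual_apply_eq_zero_iff F (Z v)).1 fun φ => ?_
  have h2 := h1 (φ.smulRight v)
  have h3 : Z * φ.smulRight v = φ.smulRight (Z v) :=
    LinearMap.ext fun x => by
      rw [Module.End.mul_apply, LinearMap.smulRight_apply, map_smul, LinearMap.smulRight_apply]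
  rw [h3, LinearMap.trace_smulRight] at h2
  exact h2

end burn

theorem t_BURN : S_BURN :=
  fun _ _ _ _ _ _ _ _ _ ρ hirr => ⟨schur ρ hirr, trace_zero ρ hirr⟩

section split

variable {F V : Type} [Field F] [AddCommGroup V] [Module F V] [Module.Finite F V]

open Module.Basis in
/-- the trace is additive in exact sequences -/
theorem trace_split {W : Submodule F V} {e : Module.End F V} (he : W ≤ W.comap e) :
    LinearMap.trace F V e = LinearMap.trace F W (e.restrict he) +
      LinearMap.trace F (V ⧸ W) (W.mapQ W e he) := by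
  classical
  let m := Module.Free.ChooseBasisIndex F W
  let bW : Basis m F W := Module.Free.chooseBasis F W
  let n := Module.Free.ChooseBasisIndex F (V ⧸ W)
  let bQ : Basis n F (V ⧸ W) := Module.Free.chooseBasis F (V ⧸ W)
  let b := sumQuot bW bQ
  let A : Matrix m m F := LinearMap.toMatrix bW bW (e.restrict he)
  let B : Matrix m n F := Matrix.of fun i l ↦
    ((sumQuot bW bQ).repr (e ((sumQuot bW bQ) (Sum.inr l)))) (Sum.inl i)
  let D : Matrix n n F := LinearMap.toMatrix bQ bQ (W.mapQ W e he)
  suffices LinearMap.toMatrix b b e = Matrix.fromBlocks A B 0 D by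
    rw [LinearMap.trace_eq_matrix_trace F b, this, LinearMap.trace_eq_matrix_trace F bW,
      LinearMap.trace_eq_matrix_trace F bQ]
    rw [Matrix.trace, Matrix.trace, Matrix.trace, Fintype.sum_sum_type]
    rfl
  ext u v
  cases u with
  | inl i =>
    cases v with
    | inl k =>
      simp only [b, sumQuot_inl, Matrix.fromBlocks_apply₁₁, A, LinearMap.toMatrix_apply]
      apply sumQuot_repr_inl_of_mem
    | inr l => simp [b, LinearMap.toMatrix_apply, Matrix.fromBlocks_apply₁₂, B]
  | inr j =>
    cases v with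
    | inl k =>
      suffices W.mkQ (e (bW k)) = 0 by simp [LinearMap.toMatrix_apply, b, this]
      rw [← LinearMap.mem_ker, Submodule.ker_mkQ]
      exact he (Submodule.coe_mem (bW k))
    | inr l =>
      simp only [LinearMap.toMatrix_apply, sumQuot_repr_inr,
        Matrix.fromBlocks_apply₂₂, b, D]
      rw [← sumQuot_inr bW bQ l, W.mapQ_apply]
      simp

/-- the trace of a unipotent operator -/
theorem trace_uni {e : Module.End F V} (he : IsNilpotent (e - 1)) :
    LinearMap.trace F V e = finrank F V := by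
  have h1 := (LinearMap.isNilpotent_trace_of_isNilpotent he).eq_zero
  rw [map_sub, sub_eq_zero] at h1
  rw [h1, LinearMap.trace_one]

end split

section uni

variable {F G : Type} [Field F] [Group G]

/-- the vectors fixed by `U` (after the twist) -/
def fixed {V : Type} [AddCommGroup V] [Module F V] (ρ : G →* Module.End F V) (ψ : G → F)
    (U : Subgroup G) : Submodule F V where
  carrier := {x | ∀ u ∈ U, ψ u • ρ u x = x}
  add_mem' := by
    intro x y hx hy u hu
    rw [map_add, smul_add, hx u hu, hy u hu]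
  zero_mem' := by
    intro u _
    rw [map_zero, smul_zero]
  smul_mem' := by
    intro c x hx u hu
    rw [map_smul, smul_comm, hx u hu]

theorem mem_fixed {V : Type} [AddCommGroup V] [Module F V] {ρ : G →* Module.End F V} {ψ : G → F}
    {U : Subgroup G} {x : V} : x ∈ fixed ρ ψ U ↔ ∀ u ∈ U, ψ u • ρ u x = x := Iff.rfl

theorem fixed_stable {V : Type} [AddCommGroup V] [Module F V] (ρ : G →* Module.End F V)
    {ψ : G → F} {U : Subgroup G} (hU : U.Normal) (hψ : Tw ψ U) (g : G) :
    fixed ρ ψ U ≤ (fixed ρ ψ U).comap (ρ g) := by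
  intro x hx
  rw [Submodule.mem_comap, mem_fixed]
  intro u hu
  have h1 : g⁻¹ * u * g ∈ U := by
    have := hU.conj_mem u hu g⁻¹
    rwa [inv_inv] at this
  have h2 : ψ (g⁻¹ * u * g) = ψ u := by
    have := hψ.conj u hu g⁻¹
    rwa [inv_inv] at this
  have h3 := hx _ h1
  rw [h2] at h3
  have h4 : ρ u (ρ g x) = ρ g (ρ (g⁻¹ * u * g) x) := by
    rw [← Module.End.mul_apply, ← Module.End.mul_apply, ← map_mul, ← map_mul]
    congr 2
    group
  rw [h4, ← map_smul, h3]

/-- a minimal nonzero stable subspace -/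
theorem exists_min {V : Type} [AddCommGroup V] [Module F V] [Module.Finite F V] [Nontrivial V]
    (ρ : G →* Module.End F V) (U : Subgroup G) :
    ∃ W : Submodule F V, W ≠ ⊥ ∧ (∀ u ∈ U, ∀ x ∈ W, ρ u x ∈ W) ∧
      ∀ W' : Submodule F V, W' ≤ W → (∀ u ∈ U, ∀ x ∈ W', ρ u x ∈ W') → W' = ⊥ ∨ W' = W := by
  have hwf : WellFounded ((· < ·) : Submodule F V → Submodule F V → Prop) :=
    wellFounded_lt
  obtain ⟨W, ⟨hW, hst⟩, hmin⟩ := hwf.has_min
    {W : Submodule F V | W ≠ ⊥ ∧ ∀ u ∈ U, ∀ x ∈ W, ρ u x ∈ W}
    ⟨⊤, top_ne_bot, fun _ _ _ _ => Submodule.mem_top⟩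
  refine ⟨W, hW, hst, fun W' hle hst' => ?_⟩
  by_cases h : W' = ⊥
  · exact Or.inl h
  · right
    by_contra hne
    exact hmin W' ⟨h, hst'⟩ (lt_of_le_of_ne hle hne)

/-- the twisted representation of `U` on a stable subspace -/
noncomputable def sub {V : Type} [AddCommGroup V] [Module F V] (ρ : G →* Module.End F V)
    {ψ : G → F} {U : Subgroup G} (hψ : Tw ψ U) (W : Submodule F V)
    (hst : ∀ u ∈ U, ∀ x ∈ W, ρ u x ∈ W) : U →* Module.End F W where
  toFun u := (ψ u • ρ u : Module.End F V).restrict (p := W) (q := W)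
    fun x hx => W.smul_mem _ (hst u u.2 x hx)
  map_one' := by
    refine LinearMap.ext fun x => Subtype.ext ?_
    rw [LinearMap.restrict_coe_apply, LinearMap.smul_apply, OneMemClass.coe_one, hψ.one, map_one,
      one_smul]
    rfl
  map_mul' u v := by
    refine LinearMap.ext fun x => Subtype.ext ?_
    rw [LinearMap.restrict_coe_apply, Module.End.mul_apply, LinearMap.restrict_coe_apply,
      LinearMap.restrict_coe_apply, LinearMap.smul_apply, LinearMap.smul_apply,
      LinearMap.smul_apply, Subgroup.coe_mul, hψ.mul u u.2 v v.2, map_mul, Module.End.mul_apply,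
      map_smul, smul_smul]

theorem coe_sub {V : Type} [AddCommGroup V] [Module F V] (ρ : G →* Module.End F V)
    {ψ : G → F} {U : Subgroup G} (hψ : Tw ψ U) (W : Submodule F V)
    (hst : ∀ u ∈ U, ∀ x ∈ W, ρ u x ∈ W) (u : U) (x : W) :
    ((sub ρ hψ W hst u x : W) : V) = ψ u • ρ u x := rfl

/-- irreducibility of a minimal subspace -/
theorem sub_irr {V : Type} [AddCommGroup V] [Module F V] (ρ : G →* Module.End F V)
    {ψ : G → F} {U : Subgroup G} (hψ : Tw ψ U) (W : Submodule F V)
    (hst : ∀ u ∈ U, ∀ x ∈ W, ρ u x ∈ W)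
    (hmin : ∀ W' : Submodule F V, W' ≤ W → (∀ u ∈ U, ∀ x ∈ W', ρ u x ∈ W') → W' = ⊥ ∨ W' = W)
    (Y : Submodule F W) (hY : ∀ u, ∀ x ∈ Y, sub ρ hψ W hst u x ∈ Y) : Y = ⊥ ∨ Y = ⊤ := by
  rcases hmin (Y.map W.subtype) (Submodule.map_subtype_le W Y) (by
    rintro u hu _ ⟨x, hx, rfl⟩
    have h1 := hY ⟨u, hu⟩ x hx
    have h2 := Y.smul_mem (ψ u)⁻¹ h1
    refine ⟨_, h2, ?_⟩
    rw [Submodule.coe_subtype, Submodule.coe_smul, coe_sub, smul_smul, inv_mul_cancel₀ (hψ.ne u hu),
      one_smul]) with h | h
  · left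
    rw [eq_bot_iff]
    intro x hx
    have h1 : (x : V) ∈ Y.map W.subtype := ⟨x, hx, rfl⟩
    rw [h, Submodule.mem_bot] at h1
    rw [Submodule.mem_bot]
    exact Subtype.ext h1
  · right
    rw [eq_top_iff]
    rintro x -
    have h1 : (x : V) ∈ Y.map W.subtype := by rw [h]; exact x.2
    obtain ⟨y, hy, hyx⟩ := h1
    have : y = x := Subtype.ext hyx
    rwa [← this]

theorem fixed_ne_bot [IsAlgClosed F] {V : Type} [AddCommGroup V] [Module F V] [Module.Finite F V]
    [Nontrivial V] (ρ : G →* Module.End F V) {ψ : G → F} {U : Subgroup G} (hψ : Tw ψ U)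
    (hnil : ∀ u ∈ U, IsNilpotent (ψ u • ρ u - 1)) : fixed ρ ψ U ≠ ⊥ := by
  obtain ⟨W, hW, hst, hmin⟩ := exists_min ρ U
  have hirr := sub_irr ρ hψ W hst hmin
  have htr : ∀ u : U, LinearMap.trace F W (sub ρ hψ W hst u) = finrank F W := by
    intro u
    refine trace_uni ?_
    obtain ⟨k, hk⟩ := hnil u u.2
    refine ⟨k, ?_⟩
    have h1 : ∀ (j : ℕ) (x : W), ((((sub ρ hψ W hst u) - 1) ^ j) x : V) =
        ((ψ u • ρ u - 1) ^ j) (x : V) := by
      intro j
      induction j with
      | zero => intro x; rfl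
      | succ j ih =>
        intro x
        rw [pow_succ, pow_succ, Module.End.mul_apply, Module.End.mul_apply, ih]
        congr 1
    refine LinearMap.ext fun x => Subtype.ext ?_
    rw [h1, hk]
    rfl
  have h1 : ∀ u : U, sub ρ hψ W hst u = 1 := by
    intro u
    have h2 := trace_zero (sub ρ hψ W hst) hirr (sub ρ hψ W hst u - 1) (fun v => by
      rw [sub_mul, one_mul, ← map_mul, map_sub, htr, htr, sub_self])
    exact sub_eq_zero.1 h2
  intro h
  apply hW
  rw [eq_bot_iff, ← h]
  intro x hx
  rw [mem_fixed]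
  intro u hu
  have h2 := h1 ⟨u, hu⟩
  have h3 := congrArg (fun e : Module.End F W => ((e ⟨x, hx⟩ : W) : V)) h2
  exact h3

theorem uni_aux [IsAlgClosed F] [CharZero F] {U : Subgroup G} {ψ : G → F} (hU : U.Normal)
    (hψ : Tw ψ U) (n : ℕ) : ∀ (V : Type) [AddCommGroup V] [Module F V] [Module.Finite F V]
    (ρ : G →* Module.End F V), finrank F V = n → (∀ u ∈ U, IsNilpotent (ψ u • ρ u - 1)) →
    ∀ y, ∀ u ∈ U, LinearMap.trace F V (ρ y * (ψ u • ρ u)) = LinearMap.trace F V (ρ y) := by
  induction n using Nat.strong_induction_on with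
  | _ n ih =>
    intro V _ _ _ ρ hn hnil y u hu
    rcases subsingleton_or_nontrivial V with hV | hV
    · have h0 : ∀ x : Module.End F V, x = 0 := fun x => LinearMap.ext fun v => Subsingleton.elim _ _
      rw [h0 (ρ y * (ψ u • ρ u)), h0 (ρ y)]
    set W := fixed ρ ψ U with hWdef
    have hWb : W ≠ ⊥ := fixed_ne_bot ρ hψ hnil
    have hst : ∀ g, W ≤ W.comap (ρ g) := fixed_stable ρ hU hψ
    let σ : G →* Module.End F (V ⧸ W) :=
      { toFun := fun g => W.mapQ W (ρ g) (hst g)
        map_one' := by
          refine LinearMap.ext fun x => ?_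
          obtain ⟨x, rfl⟩ := W.mkQ_surjective x
          rw [Submodule.mkQ_apply, Submodule.mapQ_apply, map_one]
          rfl
        map_mul' := fun g h => by
          refine LinearMap.ext fun x => ?_
          obtain ⟨x, rfl⟩ := W.mkQ_surjective x
          rw [Submodule.mkQ_apply, Submodule.mapQ_apply, Module.End.mul_apply,
            Submodule.mapQ_apply, Submodule.mapQ_apply, map_mul]
          rfl }
    have hσ : ∀ (g : G) (x : V), σ g (W.mkQ x) = W.mkQ (ρ g x) := fun g x => rfl
    have hlt : finrank F (V ⧸ W) < n := by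
      have h1 := Submodule.finrank_quotient_add_finrank W
      have h2 : 0 < finrank F W := by
        rw [Nat.pos_iff_ne_zero]
        intro h
        exact hWb (Submodule.finrank_eq_zero.1 h)
      omega
    have hnil' : ∀ u ∈ U, IsNilpotent (ψ u • σ u - 1) := by
      intro u hu
      obtain ⟨k, hk⟩ := hnil u hu
      refine ⟨k, ?_⟩
      have h1 : ∀ (j : ℕ) (x : V), ((ψ u • σ u - 1) ^ j) (W.mkQ x) =
          W.mkQ (((ψ u • ρ u - 1) ^ j) x) := by
        intro j
        induction j with
        | zero => intro x; rfl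
        | succ j ihj =>
          intro x
          rw [pow_succ, pow_succ, Module.End.mul_apply, Module.End.mul_apply]
          have h2 : (ψ u • σ u - 1) (W.mkQ x) = W.mkQ ((ψ u • ρ u - 1) x) := by
            rw [LinearMap.sub_apply, LinearMap.smul_apply, hσ, LinearMap.sub_apply,
              LinearMap.smul_apply, map_sub, map_smul]
            rfl
          rw [h2, ihj]
      refine LinearMap.ext fun x => ?_
      obtain ⟨x, rfl⟩ := W.mkQ_surjective x
      rw [h1, hk]
      simp
    have hI := ih _ hlt (V ⧸ W) σ rfl hnil' y u hu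
    have he1 : W ≤ W.comap (ρ y * (ψ u • ρ u)) := by
      intro x hx
      have h1 : ψ u • ρ u x = x := mem_fixed.1 hx u hu
      have h2 : (ρ y * (ψ u • ρ u)) x = ρ y x := by
        rw [Module.End.mul_apply, LinearMap.smul_apply, h1]
      rw [Submodule.mem_comap, h2]
      exact hst y hx
    rw [trace_split he1, trace_split (hst y)]
    congr 1
    · congr 1
      refine LinearMap.ext fun x => Subtype.ext ?_
      have h1 : ψ u • ρ u (x : V) = x := mem_fixed.1 x.2 u hu
      rw [LinearMap.restrict_coe_apply, LinearMap.restrict_coe_apply, Module.End.mul_apply,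
        LinearMap.smul_apply, h1]
    · have h1 : W.mapQ W (ρ y * (ψ u • ρ u)) he1 = σ y * (ψ u • σ u) := by
        refine LinearMap.ext fun x => ?_
        obtain ⟨x, rfl⟩ := W.mkQ_surjective x
        have h2 : (σ y * (ψ u • σ u)) (W.mkQ x) = W.mkQ ((ρ y * (ψ u • ρ u)) x) := by
          rw [Module.End.mul_apply, LinearMap.smul_apply, hσ, Module.End.mul_apply,
            LinearMap.smul_apply, map_smul, hσ, map_smul, map_smul]
        rw [h2]
        rfl
      rw [h1, hI]
      rfl

end uni

theorem t_UNI : S_UNI :=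
  fun _ V _ _ _ _ _ _ _ _ ρ _ _ hU hψ hnil => uni_aux hU hψ _ V ρ rfl hnil

end Pool.Agent.D0H74.TH
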